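import Pool.Agent.Lib.MP_3e612f_nt.ZE.I.Mix
import Pool.Agent.Lib.MP_3e612f_nt.NF.E.Asm

/-! The models of a measure whose ergodic components are modelled by the systems of countably many families. -/

set_option autoImplicit false

namespace Pool.Agent.Lib.MP_3e612f_nt.ZE

open Finset MeasureTheory Filter Topology ProbabilityTheory
open Pool.Agent.Lib.MP_3e612f_nt.NF (GoodR ConvPM IsBary fam Famc compPM)

/-- Proof of `NF.erg_modl` (Lib/MP_3e612f_nt/NF/E/Asm) with `mixu`; `NF.compPM_meas`, `NF.closed_inv`, `NF.pm_cont`, `NF.erg_inv`, `NF.erg_bary` can be cited. -/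
theorem erg_modU {Y : Type} [MetricSpace Y] [CompactSpace Y] [MeasurableSpace Y] [BorelSpace Y] (S : Y → Y) (hS : Continuous S) (g : Y → ℂ) (hg : Continuous g) (hg1 : ∀ y, ‖g y‖ ≤ 1 / 2)
    (𝓕 : ℕ → Famc) (hf1 : ∀ c x, ‖(𝓕 c).f x‖ ≤ 1 / 2) (HH : ℕ → ℕ) (hH : ∀ c, 1 ≤ HH c) (K : ℕ) (ε : ℝ) (hε : 0 < ε) (ν : Measure Y) [IsProbabilityMeasure ν] (hν : MeasurePreserving S ν ν)
    (H : ∀ᵐ y ∂ν, ∃ c, ∃ z ∈ ⋂ j, (𝓕 c).GG j, ∃ lam : Measure ((𝓕 c).X × Y), JoinP ((𝓕 c).Φ z) S (condExpKernel ν (MeasurableSpace.invariants S) y) (Ps ((𝓕 c).Φ z) S (𝓕 c).f g (HH c) K) ε lam) :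
    ModU S g K ν (2 * ε) := by
  have hop := NF.opens_meas Y
  have hm := NF.compPM_meas S ν
  have hp : IsProbabilityMeasure (ν.map (compPM S ν)) := Measure.isProbabilityMeasure_map hm.aemeasurable
  refine mixu S hS g hg hg1 𝓕 hf1 HH hH K ε hε (ν.map (compPM S ν)) ?_ ?_ ⟨ν, inferInstance⟩ ?_
  · refine le_antisymm prob_le_one ?_
    refine le_trans ?_ (Measure.le_map_apply hm.aemeasurable _)
    have h2 : ν (compPM S ν ⁻¹' {ν | ∃ c, ∃ z ∈ ⋂ j, (𝓕 c).GG j, ν ∈ PSet ((𝓕 c).Φ z) S (Ps ((𝓕 c).Φ z) S (𝓕 c).f g (HH c) K) ε})ᶜ = 0 := by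
      have h3 : ∀ᵐ y ∂ν, y ∈ compPM S ν ⁻¹' {ν | ∃ c, ∃ z ∈ ⋂ j, (𝓕 c).GG j, ν ∈ PSet ((𝓕 c).Φ z) S (Ps ((𝓕 c).Φ z) S (𝓕 c).f g (HH c) K) ε} := H
      exact mem_ae_iff.1 h3
    have h3 := measure_union_le (μ := ν) (compPM S ν ⁻¹' {ν | ∃ c, ∃ z ∈ ⋂ j, (𝓕 c).GG j, ν ∈ PSet ((𝓕 c).Φ z) S (Ps ((𝓕 c).Φ z) S (𝓕 c).f g (HH c) K) ε})
      (compPM S ν ⁻¹' {ν | ∃ c, ∃ z ∈ ⋂ j, (𝓕 c).GG j, ν ∈ PSet ((𝓕 c).Φ z) S (Ps ((𝓕 c).Φ z) S (𝓕 c).f g (HH c) K) ε})ᶜ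
    rw [Set.union_compl_self, measure_univ, h2, add_zero] at h3
    exact h3
  · have h1 : ∀ᵐ y ∂ν, MeasurePreserving S ((compPM S ν y : ProbabilityMeasure Y) : Measure Y) ((compPM S ν y : ProbabilityMeasure Y) : Measure Y) := NF.erg_inv S hS ν hν
    exact (ae_map_iff hm.aemeasurable (NF.closed_inv S hS).measurableSet).2 h1
  · intro φ
    rw [integral_map hm.aemeasurable]
    · exact NF.erg_bary S ν φ
    · exact (NF.pm_cont φ).aestronglyMeasurable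

end Pool.Agent.Lib.MP_3e612f_nt.ZE
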