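import Pool.Agent.Lib.MP_3e612f_nt.ZE.I.Defs
import Pool.Agent.Lib.MP_3e612f_nt.ZE.H.Psi

/-! Project ZE, part I: the function `Ps` for a family. -/

set_option autoImplicit false

namespace Pool.Agent.Lib.MP_3e612f_nt.ZE

open Finset MeasureTheory Filter Topology
open Pool.Agent.Lib.MP_3e612f_nt.NF (fam)

/-- `psi_cont`; `(z, x) ↦ (Φ z)^[n] x` is continuous (induction on `n`). -/
theorem Ps_cont {Z X Y : Type} [TopologicalSpace Z] [TopologicalSpace X] [TopologicalSpace Y] (Φ : Z → X → X) (hΦ : Continuous fun q : Z × X => Φ q.1 q.2) (S : Y → Y) (hS : Continuous S)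
    (f : X → ℂ) (hf : Continuous f) (g : Y → ℂ) (hg : Continuous g) (H K : ℕ) : Continuous fun q : Z × (X × Y) => Ps (Φ q.1) S f g H K q.2 := by
  have hi : ∀ n : ℕ, Continuous fun q : Z × X => (Φ q.1)^[n] q.2 := by
    intro n
    induction n with
    | zero => exact continuous_snd
    | succ n ih =>
      have h1 : Continuous fun q : Z × X => Φ q.1 ((Φ q.1)^[n] q.2) :=
        hΦ.comp (continuous_fst.prodMk ih)
      refine h1.congr fun q => ?_
      rw [Function.iterate_succ_apply']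
  refine psi_cont H K (fun q : Z × (X × Y) => wd (Φ q.1) S f g q.2) (fun n => ?_) 0
  have h2 : Continuous fun q : Z × (X × Y) => g (S^[n] q.2.2) :=
    hg.comp ((hS.iterate n).comp (continuous_snd.comp continuous_snd))
  have h3 : Continuous fun q : Z × (X × Y) => ((q.1, q.2.1) : Z × X) :=
    continuous_fst.prodMk (continuous_fst.comp continuous_snd)
  exact h2.sub (hf.comp ((hi n).comp h3))

theorem Ps_cont1 {X Y : Type} [TopologicalSpace X] [TopologicalSpace Y] (T : X → X) (hT : Continuous T) (S : Y → Y) (hS : Continuous S)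
    (f : X → ℂ) (hf : Continuous f) (g : Y → ℂ) (hg : Continuous g) (H K : ℕ) : Continuous fun p : X × Y => Ps T S f g H K p := by
  refine psi_cont H K (fun p : X × Y => wd T S f g p) (fun n => ?_) 0
  exact (hg.comp ((hS.iterate n).comp continuous_snd)).sub
    (hf.comp ((hT.iterate n).comp continuous_fst))

theorem fam_iter {Z X : Type} (Φ : Z → X → X) (U : Set Z) (q : U × X) (n : ℕ) : (fam Φ U)^[n] q = (q.1, (Φ q.1)^[n] q.2) := by
  induction n with
  | zero => rfl
  | succ n ih => rw [Function.iterate_succ_apply', ih, Function.iterate_succ_apply', fam]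

/-- `fam_iter` -/
theorem Ps_fam {Z X Y : Type} (Φ : Z → X → X) (U : Set Z) (S : Y → Y) (f : X → ℂ) (g : Y → ℂ) (H K : ℕ) (z : U) (x : X) (y : Y) :
    Ps (fam Φ U) S (fun q => f q.2) g H K ((z, x), y) = Ps (Φ z) S f g H K (x, y) := by
  have h : wd (fam Φ U) S (fun q => f q.2) g ((z, x), y) = wd (Φ z) S f g (x, y) := by
    funext n
    unfold wd
    rw [fam_iter]
  unfold Ps
  rw [h]

/-- `psi_nonneg`, `psi_le_one` -/
theorem Ps_bound {X Y : Type} (T : X → X) (S : Y → Y) (f : X → ℂ) (hf : ∀ x, ‖f x‖ ≤ 1 / 2) (g : Y → ℂ) (hg : ∀ y, ‖g y‖ ≤ 1 / 2) (H K : ℕ) (p : X × Y) :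
    0 ≤ Ps T S f g H K p ∧ Ps T S f g H K p ≤ 1 := by
  refine ⟨psi_nonneg H K _ 0, psi_le_one H K _ (fun n => ?_) 0⟩
  unfold wd
  have h1 := norm_sub_le (g (S^[n] p.2)) (f (T^[n] p.1))
  have h2 := hg (S^[n] p.2)
  have h3 := hf (T^[n] p.1)
  linarith

end Pool.Agent.Lib.MP_3e612f_nt.ZE
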