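import Pool.Agent.Lib.MP_3e612f_nt.ZE.H.Defs

/-! Project ZE, part I (from ergodic components to models): definitions. -/

set_option autoImplicit false

namespace Pool.Agent.Lib.MP_3e612f_nt.ZE

open Finset MeasureTheory Filter Topology
open Pool.Agent.Lib.MP_3e612f_nt.NF (GoodR ConvPM fam Famc)

/-- `lam` is an invariant probability measure of `T × S` with second marginal `ν` and `∫ Ψ d lam ≤ ε` (`NF.JoinLe` with a general integrand). -/
def JoinP {E Y : Type} [MeasurableSpace E] [MeasurableSpace Y] (T : E → E) (S : Y → Y) (ν : Measure Y) (Ψ : E × Y → ℝ) (ε : ℝ) (lam : Measure (E × Y)) : Prop :=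
  IsProbabilityMeasure lam ∧ MeasurePreserving (Prod.map T S) lam lam ∧ lam.map Prod.snd = ν ∧ ∫ p, Ψ p ∂lam ≤ ε

/-- the measures with a joining as in `JoinP` -/
def PSet {E Y : Type} [MeasurableSpace E] [MeasurableSpace Y] (T : E → E) (S : Y → Y) (Ψ : E × Y → ℝ) (ε : ℝ) : Set (ProbabilityMeasure Y) :=
  {ν | ∃ lam : Measure (E × Y), JoinP T S (ν : Measure Y) Ψ ε lam}

/-- the local box norm of order `K + 1` at the scale `H` of the word `g (S^n y) - f (T^n x)` at the place `0`, as a function on the product -/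
noncomputable def Ps {E Y : Type} (T : E → E) (S : Y → Y) (f : E → ℂ) (g : Y → ℂ) (H K : ℕ) (p : E × Y) : ℝ := psi H K (wd T S f g p) 0

end Pool.Agent.Lib.MP_3e612f_nt.ZE
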