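import Pool.Agent.Lib.MP_3e612f_nt.ZE.I.Defs
import Pool.Agent.Lib.MP_3e612f_nt.NF.E.JoinZA

/-! Joinings with the systems of a family: a closed condition in the parameter and the measures. -/

set_option autoImplicit false

namespace Pool.Agent.Lib.MP_3e612f_nt.ZE

open MeasureTheory Filter Topology
open Pool.Agent.Lib.MP_3e612f_nt.NF (ConvPM fam)

/-- Proof of `NF.joinz_closed` (Lib/MP_3e612f_nt/NF/E/JoinZ); the last condition depends now on the parameter too: `(z, lam) ↦ ∫ Ψ (z, p) dlam` is continuous by `NF.jza_cont`, as the condition of invariance there. -/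
theorem joinpz_closed {Z X Y : Type} [MetricSpace Z] [MetricSpace X] [CompactSpace X] [MeasurableSpace X] [BorelSpace X]
    [MetricSpace Y] [CompactSpace Y] [MeasurableSpace Y] [BorelSpace Y]
    (Φ : Z → X → X) (hΦ : Continuous fun q : Z × X => Φ q.1 q.2) (S : Y → Y) (hS : Continuous S) (Ψ : Z → X × Y → ℝ) (hΨ : Continuous fun q : Z × (X × Y) => Ψ q.1 q.2) (ε : ℝ) :
    IsClosed {q : ProbabilityMeasure Y × (Z × ProbabilityMeasure (X × Y)) | JoinP (Φ q.2.1) S (q.1 : Measure Y) (Ψ q.2.1) ε (q.2.2 : Measure (X × Y))} := by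
  have hG : ∀ z, Continuous (Prod.map (Φ z) S) := fun z =>
    ((hΦ.comp (continuous_const.prodMk continuous_id)).prodMap hS)
  have key : {q : ProbabilityMeasure Y × (Z × ProbabilityMeasure (X × Y)) |
      JoinP (Φ q.2.1) S (q.1 : Measure Y) (Ψ q.2.1) ε (q.2.2 : Measure (X × Y))} =
      ((⋂ φ : C(X × Y, ℝ), {q | ∫ p, φ (Prod.map (Φ q.2.1) S p) ∂(q.2.2 : Measure (X × Y)) =
          ∫ p, φ p ∂(q.2.2 : Measure (X × Y))}) ∩
        (⋂ φ : C(Y, ℝ), {q | ∫ p : X × Y, φ p.2 ∂(q.2.2 : Measure (X × Y)) =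
          ∫ y, φ y ∂(q.1 : Measure Y)})) ∩
        {q | ∫ p, Ψ q.2.1 p ∂(q.2.2 : Measure (X × Y)) ≤ ε} := by
    ext q
    simp only [Set.mem_inter_iff, Set.mem_iInter, Set.mem_ofPred_eq]
    constructor
    · rintro ⟨-, h1, h2, h3⟩
      exact ⟨⟨(NF.jza_mp _ (hG _)).1 h1, (NF.jza_map _ _ continuous_snd).1 h2⟩, h3⟩
    · rintro ⟨⟨h1, h2⟩, h3⟩
      exact ⟨inferInstance, (NF.jza_mp _ (hG _)).2 h1, (NF.jza_map _ _ continuous_snd).2 h2, h3⟩
  rw [key]
  refine IsClosed.inter (IsClosed.inter (isClosed_iInter fun φ => ?_)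
    (isClosed_iInter fun φ => ?_)) ?_
  · refine isClosed_eq ?_ ?_
    · let F : C(Z × (X × Y), ℝ) := ⟨fun q => φ (Prod.map (Φ q.1) S q.2), by
        refine φ.continuous.comp (Continuous.prodMk ?_ (hS.comp
          (continuous_snd.comp continuous_snd)))
        exact hΦ.comp (continuous_fst.prodMk (continuous_fst.comp continuous_snd))⟩
      have h1 := NF.jza_cont (fun z => F.curry z) F.curry.continuous
      exact h1.comp continuous_snd
    · exact (ProbabilityMeasure.continuous_integral_continuousMap φ).comp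
        (continuous_snd.comp continuous_snd)
  · refine isClosed_eq ?_ ?_
    · let φ' : C(X × Y, ℝ) := φ.comp ⟨Prod.snd, continuous_snd⟩
      exact (ProbabilityMeasure.continuous_integral_continuousMap φ').comp
        (continuous_snd.comp continuous_snd)
    · exact (ProbabilityMeasure.continuous_integral_continuousMap φ).comp continuous_fst
  · refine isClosed_le ?_ continuous_const
    let F : C(Z × (X × Y), ℝ) := ⟨fun q => Ψ q.1 q.2, hΨ⟩
    have h1 := NF.jza_cont (fun z => F.curry z) F.curry.continuous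
    exact h1.comp continuous_snd

end Pool.Agent.Lib.MP_3e612f_nt.ZE
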