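import Pool.Agent.Lib.MP_3e612f_nt.ZE.H.Sums

/-! Project ZE, part I: logarithmic limit measures are invariant. -/

set_option autoImplicit false

namespace Pool.Agent.Lib.MP_3e612f_nt.ZE

open Finset MeasureTheory Filter Topology

private theorem linv_bdd {Y : Type} [MetricSpace Y] [CompactSpace Y] (φ : C(Y, ℝ)) :
    ∃ G : ℝ, 0 ≤ G ∧ ∀ y, |φ y| ≤ G :=
  ⟨‖φ‖, norm_nonneg _, fun y => φ.norm_coe_le_norm y⟩

/-- telescoping -/
private theorem linv_tele (a : ℕ → ℝ) (h : ℕ) :
    ∑ n ∈ range h, a (n + 1) - ∑ n ∈ range h, a n = a h - a 0 := by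
  rw [← Finset.sum_sub_distrib, Finset.sum_range_sub]

/-- Proof of `NF.dlim_mp` (Lib/MP_3e612f_nt/NF/E/Unif): for continuous `φ`, `|φ| ≤ G`, the sums over `n < h` of `φ (S^[n+1] y)` and `φ (S^[n] y)` differ by at most `2 G`, so the averages differ by at most `2 G lw N / (log N h) ≤ 4 G / h` (`lw_log`, `log N → ∞`). -/
theorem llim_mp {Y : Type} [MetricSpace Y] [CompactSpace Y] [MeasurableSpace Y] [BorelSpace Y] (S : Y → Y) (hS : Continuous S) (F : Set (ℕ → Y)) (ν : Measure Y)
    [IsProbabilityMeasure ν] (h : LLim S F ν) : MeasurePreserving S ν ν := by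
  obtain ⟨N, h, y, -, hh, hN, hφ⟩ := h
  refine ⟨hS.measurable, ?_⟩
  have : IsProbabilityMeasure (ν.map S) := Measure.isProbabilityMeasure_map hS.measurable.aemeasurable
  refine ext_of_forall_integral_eq_of_IsFiniteMeasure fun φ => ?_
  rw [integral_map hS.measurable.aemeasurable φ.continuous.measurable.aestronglyMeasurable]
  obtain ⟨G, hG0, hG⟩ := linv_bdd φ.toContinuousMap
  have h1 := hφ φ.toContinuousMap
  have h2 := hφ (φ.toContinuousMap.comp ⟨S, hS⟩)
  have h3 := h2.sub h1
  have h4 : Tendsto (fun k =>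
      (∑ x ∈ range (N k), (∑ n ∈ range (h k), (φ.toContinuousMap.comp ⟨S, hS⟩) (S^[n] (y k x))) / ((x : ℝ) + 1)) /
        (Real.log (N k) * (h k : ℝ)) -
      (∑ x ∈ range (N k), (∑ n ∈ range (h k), φ.toContinuousMap (S^[n] (y k x))) / ((x : ℝ) + 1)) /
        (Real.log (N k) * (h k : ℝ))) atTop (𝓝 0) := by
    have h5 : Tendsto (fun k => (4 * G) / (h k : ℝ)) atTop (𝓝 0) :=
      (tendsto_const_div_atTop_nhds_zero_nat (4 * G)).comp hh
    refine squeeze_zero_norm' ?_ h5
    filter_upwards [hh.eventually_ge_atTop 1, hN.eventually_ge_atTop 1] with k hk1 hk2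
    have hk0 : (0 : ℝ) < h k := by exact_mod_cast hk1
    have hk1' : (1 : ℝ) ≤ h k := by exact_mod_cast hk1
    rw [le_div_iff₀ hk0, one_mul] at hk2
    have hl1 : 1 ≤ Real.log (N k) := hk1'.trans hk2
    have hN1 : 1 ≤ N k := by
      rcases Nat.eq_zero_or_pos (N k) with h6 | h6
      · rw [h6, Nat.cast_zero, Real.log_zero] at hl1
        linarith
      · exact h6
    have hlw := (lw_log (N k) hN1).2
    have hlog0 : 0 < Real.log (N k) := by linarith
    have hlw2 : lw (N k) ≤ 2 * Real.log (N k) := by linarith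
    rw [← sub_div, ← Finset.sum_sub_distrib, norm_div, Real.norm_eq_abs, Real.norm_eq_abs,
      abs_of_pos (mul_pos hlog0 hk0), div_le_div_iff₀ (mul_pos hlog0 hk0) hk0]
    have h7 : |∑ x ∈ range (N k), ((∑ n ∈ range (h k),
        (φ.toContinuousMap.comp ⟨S, hS⟩) (S^[n] (y k x))) / ((x : ℝ) + 1) -
        (∑ n ∈ range (h k), φ.toContinuousMap (S^[n] (y k x))) / ((x : ℝ) + 1))| ≤
        (2 * G) * lw (N k) := by
      refine (Finset.abs_sum_le_sum_abs _ _).trans ?_
      unfold lw
      rw [Finset.mul_sum]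
      refine Finset.sum_le_sum fun x _ => ?_
      have e : ∀ n, (φ.toContinuousMap.comp ⟨S, hS⟩) (S^[n] (y k x)) =
          φ.toContinuousMap (S^[n + 1] (y k x)) := by
        intro n
        rw [Function.iterate_succ_apply']
        rfl
      have hx : (0 : ℝ) < (x : ℝ) + 1 := by positivity
      rw [← sub_div, Finset.sum_congr rfl fun n _ => e n,
        linv_tele (fun n => φ.toContinuousMap (S^[n] (y k x))), abs_div, abs_of_pos hx,
        mul_one_div]
      refine div_le_div_of_nonneg_right ?_ hx.le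
      refine (abs_sub _ _).trans ?_
      have := hG (S^[h k] (y k x))
      have := hG (S^[0] (y k x))
      linarith
    have h8 : (2 * G) * lw (N k) ≤ 4 * G * Real.log (N k) := by
      have := mul_le_mul_of_nonneg_left hlw2 (by linarith : (0 : ℝ) ≤ 2 * G)
      linarith
    calc _ ≤ (4 * G * Real.log (N k)) * h k :=
          mul_le_mul_of_nonneg_right (h7.trans h8) hk0.le
      _ = 4 * G * (Real.log (N k) * h k) := by ring
  have h6 := tendsto_nhds_unique h3 h4
  have h7 : ∫ z, (φ.toContinuousMap.comp ⟨S, hS⟩) z ∂ν = ∫ z, φ.toContinuousMap z ∂ν := by linarith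
  exact h7

end Pool.Agent.Lib.MP_3e612f_nt.ZE
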