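import Pool.Agent.Lib.MP_3e612f_nt.ZE.I.Defs
import Pool.Agent.Lib.MP_3e612f_nt.ZE.H.Psi
import Pool.Agent.Lib.MP_3e612f_nt.NF.E.Sum

/-! Disjoint unions of models. -/

set_option autoImplicit false

namespace Pool.Agent.Lib.MP_3e612f_nt.ZE

open Finset MeasureTheory Filter Topology
open Pool.Agent.Lib.MP_3e612f_nt.PI (mc)

/-- Proof of `NF.modl_sum` (Lib/MP_3e612f_nt/NF/E/Sum): `E = Σ i, E i`, `lam = ∑ w_i (image of lam_i under (x, y) ↦ (⟨i, x⟩, y))`, `HH ⟨i, x⟩ = HH_i x`, the bound is `∑ i, Hm_i`; `NF.goodR_sigma`, `NF.sum_iter`, `NF.sum_measurable`, `NF.sum_mk`. The word on the piece `i` is the word of the model `i` (`sum_iter`). Measurability of the integrand: `psi_meas_scale`. -/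
theorem modU_sum {Y : Type} [MeasurableSpace Y] (S : Y → Y) (hS : Measurable S) (g : Y → ℂ) (hg : Measurable g) (hg1 : ∀ y, ‖g y‖ ≤ 1 / 2) (K r : ℕ) (w : Fin r → ℝ) (hw : ∀ i, 0 ≤ w i) (hw1 : ∑ i, w i = 1)
    (ν : Fin r → Measure Y) (ε : Fin r → ℝ) (h : ∀ i, ModU S g K (ν i) (ε i)) (ν₀ : Measure Y) (hν₀ : ν₀ = ∑ i, ENNReal.ofReal (w i) • ν i) : ModU S g K ν₀ (∑ i, w i * ε i) := by
  classical
  choose E mE T f HH Hm lam hf hC hHH hHT hHb hG' hJ using h
  have hY : Nonempty Y := by
    have h1 : ∃ i, w i ≠ 0 := by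
      by_contra hcon
      push Not at hcon
      rw [Finset.sum_congr rfl fun i _ => hcon i, Finset.sum_const_zero] at hw1
      exact zero_ne_one hw1
    obtain ⟨i, -⟩ := h1
    have := (hJ i).1
    obtain ⟨p⟩ := (lam i).nonempty_of_neZero
    exact ⟨p.2⟩
  obtain ⟨y0⟩ := hY
  have hT : ∀ i, Measurable (T i) := by
    intro i
    have h1 := (hJ i).2.1.measurable
    have h2 : Measurable fun e : E i => (e, y0) := measurable_id.prodMk measurable_const
    exact measurable_fst.comp (h1.comp h2)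
  let φ : ∀ i, E i × Y → (Σ i, E i) × Y := fun i p => (⟨i, p.1⟩, p.2)
  have hφ : ∀ i, Measurable (φ i) := fun i =>
    ((NF.sum_mk i).comp measurable_fst).prodMk measurable_snd
  let TT : (Σ i, E i) → (Σ i, E i) := fun q => ⟨q.1, T q.1 q.2⟩
  have hTT : Measurable TT := NF.sum_measurable fun i => (NF.sum_mk i).comp (hT i)
  let ff : (Σ i, E i) → ℂ := fun q => f q.1 q.2
  have hff : Measurable ff := NF.sum_measurable fun i => hf i
  let GH : (Σ i, E i) → ℕ := fun q => HH q.1 q.2
  have hGH : Measurable GH := NF.sum_measurable fun i => hHH i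
  let L : Measure ((Σ i, E i) × Y) := ∑ i, ENNReal.ofReal (w i) • (lam i).map (φ i)
  have hL : ∀ s, MeasurableSet s → L s = ∑ i, ENNReal.ofReal (w i) * lam i (φ i ⁻¹' s) := by
    intro s hs
    simp only [L]
    rw [Measure.finsetSum_apply]
    refine Finset.sum_congr rfl fun i _ => ?_
    rw [Measure.smul_apply, Measure.map_apply (hφ i) hs, smul_eq_mul]
  refine ⟨Σ i, E i, inferInstance, TT, ff, GH, ∑ i, Hm i, L, hff, fun q => hC q.1 q.2, hGH,
    fun q => hHT q.1 q.2, fun q => ⟨(hHb q.1 q.2).1, (hHb q.1 q.2).2.trans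
      (Finset.single_le_sum (f := fun i => Hm i) (fun i _ => Nat.zero_le _)
        (Finset.mem_univ q.1))⟩, NF.goodR_sigma r E T f hG', ?_, ?_, ?_, ?_⟩
  · refine ⟨?_⟩
    rw [hL _ MeasurableSet.univ]
    have h1 : ∀ i, ENNReal.ofReal (w i) * lam i (φ i ⁻¹' Set.univ) = ENNReal.ofReal (w i) := by
      intro i
      have := (hJ i).1
      rw [Set.preimage_univ, measure_univ, mul_one]
    rw [Finset.sum_congr rfl fun i _ => h1 i, ← ENNReal.ofReal_sum_of_nonneg fun i _ => hw i, hw1,
      ENNReal.ofReal_one]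
  · refine ⟨hTT.prodMap hS, ?_⟩
    refine Measure.ext fun s hs => ?_
    rw [Measure.map_apply (hTT.prodMap hS) hs, hL _ (hTT.prodMap hS hs), hL _ hs]
    refine Finset.sum_congr rfl fun i _ => ?_
    congr 1
    exact (hJ i).2.1.measure_preimage (hφ i hs).nullMeasurableSet
  · refine Measure.ext fun s hs => ?_
    rw [Measure.map_apply measurable_snd hs, hL _ (measurable_snd hs), hν₀,
      Measure.finsetSum_apply]
    refine Finset.sum_congr rfl fun i _ => ?_
    rw [Measure.smul_apply, smul_eq_mul, ← (hJ i).2.2.1, Measure.map_apply measurable_snd hs]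
    rfl
  · have hm : Measurable fun p : (Σ i, E i) × Y => psi (GH p.1) K (wd TT S ff g p) 0 := by
      refine psi_meas_scale (fun p : (Σ i, E i) × Y => GH p.1) (hGH.comp measurable_fst) K
        (fun p => wd TT S ff g p) (fun n => ?_) 0
      exact (hg.comp ((hS.iterate n).comp measurable_snd)).sub
        (hff.comp ((hTT.iterate n).comp measurable_fst))
    have hi : ∀ i (p : E i × Y), psi (GH (φ i p).1) K (wd TT S ff g (φ i p)) 0 =
        psi (HH i p.1) K (wd (T i) S (f i) g p) 0 := by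
      intro i p
      refine congrArg (fun u => psi (HH i p.1) K u 0) (funext fun n => ?_)
      show g (S^[n] p.2) - ff ((fun q : Σ i, E i => (⟨q.1, T q.1 q.2⟩ : Σ i, E i))^[n] ⟨i, p.1⟩) =
        g (S^[n] p.2) - f i ((T i)^[n] p.1)
      rw [NF.sum_iter]
    have hI2 : ∀ i, Integrable (fun p : (Σ i, E i) × Y => psi (GH p.1) K (wd TT S ff g p) 0)
        ((lam i).map (φ i)) := by
      intro i
      have := (hJ i).1
      have : IsProbabilityMeasure ((lam i).map (φ i)) :=
        Measure.isProbabilityMeasure_map (hφ i).aemeasurable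
      refine Integrable.of_bound hm.aestronglyMeasurable 1
        (Filter.Eventually.of_forall fun p => ?_)
      rw [Real.norm_of_nonneg (psi_nonneg _ _ _ _)]
      refine psi_le_one _ _ _ (fun n => ?_) 0
      refine (norm_sub_le _ _).trans ((add_le_add (hg1 _) (hC _ _)).trans ?_)
      norm_num
    simp only [L]
    rw [integral_finsetSum_measure fun i _ => (hI2 i).smul_measure ENNReal.ofReal_ne_top]
    refine Finset.sum_le_sum fun i _ => ?_
    rw [integral_smul_measure, ENNReal.toReal_ofReal (hw i), smul_eq_mul,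
      integral_map (hφ i).aemeasurable hm.aestronglyMeasurable]
    refine mul_le_mul_of_nonneg_left ?_ (hw i)
    rw [integral_congr_ae (Filter.Eventually.of_forall fun p => hi i p)]
    exact (hJ i).2.2.2

theorem modU_mono {Y : Type} [MeasurableSpace Y] (S : Y → Y) (g : Y → ℂ) (K : ℕ) (ν : Measure Y) {ε ε' : ℝ} (h : ε ≤ ε') (hm : ModU S g K ν ε) : ModU S g K ν ε' := by
  obtain ⟨E, i1, T, f, HH, Hm, lam, h1, h2, h3, h4, h5, h6, h7, h8, h9, h10⟩ := hm
  exact ⟨E, i1, T, f, HH, Hm, lam, h1, h2, h3, h4, h5, h6, h7, h8, h9, h10.trans h⟩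

end Pool.Agent.Lib.MP_3e612f_nt.ZE
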