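import Pool.Agent.Lib.MP_3e612f_nt.ZE.I.CapFam
import Pool.Agent.Lib.MP_3e612f_nt.ZE.I.Closed
import Pool.Agent.Lib.MP_3e612f_nt.ZE.I.Cont
import Pool.Agent.Lib.MP_3e612f_nt.ZE.I.Sum
import Pool.Agent.Lib.MP_3e612f_nt.NF.E.MixA

/-! Mixtures: auxiliary statements. -/

set_option autoImplicit false

namespace Pool.Agent.Lib.MP_3e612f_nt.ZE

open Finset MeasureTheory Filter Topology
open Pool.Agent.Lib.MP_3e612f_nt.NF (GoodR ConvPM IsBary fam Famc)

variable {Y : Type} [MetricSpace Y] [CompactSpace Y] [MeasurableSpace Y] [BorelSpace Y]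

/-- Proof of `NF.mxa_cap` (Lib/MP_3e612f_nt/NF/E/MixA): `capp_fam` with `Ψ z = Ps (𝓕.Φ z) S 𝓕.f g H K` (`Ps_cont`), `D = PSet (fam 𝓕.Φ U) S (Ps (fam 𝓕.Φ U) S (fun q => 𝓕.f q.2) g H K) ε` (`Ps_cont1`, `pset_closed`, `pset_conv`), `HH = H` constant in `ModU`, `pset_fam` and `Ps_fam`. -/
theorem mxu_cap (S : Y → Y) (hS : Continuous S) (g : Y → ℂ) (hg : Continuous g) (𝓕 : Famc) (hf1 : ∀ x, ‖𝓕.f x‖ ≤ 1 / 2) (H K : ℕ) (hH : 1 ≤ H) (ε : ℝ)
    (ρ : Measure (ProbabilityMeasure Y)) [IsFiniteMeasure ρ] (δ : ENNReal) (hδ : δ ≠ 0) :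
    ∃ D : Set (ProbabilityMeasure Y), IsClosed D ∧ ConvPM D ∧
      (∀ ν ∈ D, ModU S g K (ν : Measure Y) ε) ∧
      ∃ A' : Set (ProbabilityMeasure Y), A' ⊆ D ∧
        A' ⊆ {ν | ∃ z ∈ ⋂ j, 𝓕.GG j, ν ∈ PSet (𝓕.Φ z) S (Ps (𝓕.Φ z) S 𝓕.f g H K) ε} ∧
        ρ {ν | ∃ z ∈ ⋂ j, 𝓕.GG j, ν ∈ PSet (𝓕.Φ z) S (Ps (𝓕.Φ z) S 𝓕.f g H K) ε} ≤ ρ A' + δ := by
  obtain ⟨U, hU, hUG, hle⟩ := capp_fam 𝓕.Φ 𝓕.cont S hS (fun z => Ps (𝓕.Φ z) S 𝓕.f g H K)
    (Ps_cont 𝓕.Φ 𝓕.cont S hS 𝓕.f 𝓕.hf g hg H K) ε 𝓕.GG 𝓕.isOpen ρ δ hδ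
  have hcU : CompactSpace U := isCompact_iff_compactSpace.1 hU
  have hfam : Continuous (fam 𝓕.Φ U) := by
    unfold fam
    exact continuous_fst.prodMk
      (𝓕.cont.comp ((continuous_subtype_val.comp continuous_fst).prodMk continuous_snd))
  have hf2 : Continuous (fun q : U × 𝓕.X => 𝓕.f q.2) := 𝓕.hf.comp continuous_snd
  have hPs : Continuous (Ps (fam 𝓕.Φ U) S (fun q : U × 𝓕.X => 𝓕.f q.2) g H K) :=
    Ps_cont1 _ hfam S hS _ hf2 g hg H K
  refine ⟨PSet (fam 𝓕.Φ U) S (Ps (fam 𝓕.Φ U) S (fun q : U × 𝓕.X => 𝓕.f q.2) g H K) ε,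
    pset_closed _ hfam S hS _ hPs ε, pset_conv _ hfam S hS _ hPs ε, ?_,
    {ν | ∃ z ∈ U, ν ∈ PSet (𝓕.Φ z) S (Ps (𝓕.Φ z) S 𝓕.f g H K) ε}, ?_, ?_, hle⟩
  · rintro ν ⟨lam, hl1, hl2, hl3, hl4⟩
    exact ⟨U × 𝓕.X, inferInstance, fam 𝓕.Φ U, fun q => 𝓕.f q.2, fun _ => H, H, lam,
      hf2.measurable, fun q => hf1 q.2, measurable_const, fun _ => rfl, fun _ => ⟨hH, le_rfl⟩,
      𝓕.good U hU hUG, hl1, hl2, hl3, hl4⟩
  · rintro ν ⟨z, hz, hν⟩
    have h1 : Ps (𝓕.Φ z) S 𝓕.f g H K = fun p : 𝓕.X × Y =>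
        Ps (fam 𝓕.Φ U) S (fun q : U × 𝓕.X => 𝓕.f q.2) g H K ((⟨z, hz⟩, p.1), p.2) := by
      funext p
      exact (Ps_fam 𝓕.Φ U S 𝓕.f g H K ⟨z, hz⟩ p.1 p.2).symm
    rw [h1] at hν
    exact pset_fam 𝓕.Φ 𝓕.cont S hS U z hz _ hPs.measurable ε hν
  · rintro ν ⟨z, hz, hν⟩
    exact ⟨z, hUG hz, hν⟩

/-- Proof of `NF.mxa_inv`: the model is a point, `f = 0`, `HH = 1`; the integrand is at most `1` (`Ps_bound`). -/
theorem mxu_inv (S : Y → Y) (hS : Continuous S) (g : Y → ℂ) (hg : Continuous g) (hg1 : ∀ y, ‖g y‖ ≤ 1 / 2) (K : ℕ) :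
    ∃ D : Set (ProbabilityMeasure Y), IsClosed D ∧ ConvPM D ∧
      (∀ ν ∈ D, ModU S g K (ν : Measure Y) 1) ∧
      ∀ ν : ProbabilityMeasure Y, MeasurePreserving S (ν : Measure Y) (ν : Measure Y) → ν ∈ D := by
  have hz : ∀ x : Unit, ‖(fun _ : Unit => (0 : ℂ)) x‖ ≤ 1 / 2 := fun _ => by simp
  have hc : Continuous (Ps (id : Unit → Unit) S (fun _ => (0 : ℂ)) g 1 K) :=
    Ps_cont1 _ continuous_id S hS _ continuous_const g hg 1 K
  refine ⟨PSet (id : Unit → Unit) S (Ps (id : Unit → Unit) S (fun _ => (0 : ℂ)) g 1 K) 1,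
    pset_closed _ continuous_id S hS _ hc 1, pset_conv _ continuous_id S hS _ hc 1, ?_, ?_⟩
  · rintro ν ⟨lam, hl1, hl2, hl3, hl4⟩
    refine ⟨Unit, inferInstance, id, fun _ => 0, fun _ => 1, 1, lam, measurable_const, hz,
      measurable_const, fun _ => rfl, fun _ => ⟨le_rfl, le_rfl⟩, ?_, hl1, hl2, hl3, hl4⟩
    intro ε hε
    refine ⟨0, fun h _ => ⟨0, fun N _ y => ?_⟩⟩
    simp only [mul_zero, Finset.sum_const_zero, norm_zero]
    positivity
  · intro ν hν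
    have hm : Measurable (fun y : Y => ((), y)) := measurable_const.prodMk measurable_id
    refine ⟨(ν : Measure Y).map fun y => ((), y), ?_, ?_, ?_, ?_⟩
    · exact Measure.isProbabilityMeasure_map hm.aemeasurable
    · refine ⟨measurable_id.prodMap hS.measurable, ?_⟩
      rw [Measure.map_map (measurable_id.prodMap hS.measurable) hm]
      have h1 : (Prod.map (id : Unit → Unit) S) ∘ (fun y : Y => ((), y)) =
          (fun y : Y => ((), y)) ∘ S := rfl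
      rw [h1, ← Measure.map_map hm hS.measurable, hν.map_eq]
    · rw [Measure.map_map measurable_snd hm]
      have h1 : (Prod.snd : Unit × Y → Y) ∘ (fun y : Y => ((), y)) = id := rfl
      rw [h1, Measure.map_id]
    · rw [integral_map hm.aemeasurable hc.aestronglyMeasurable]
      have h2 := norm_integral_le_of_norm_le_const (μ := (ν : Measure Y)) (C := 1)
        (f := fun y => Ps (id : Unit → Unit) S (fun _ => (0 : ℂ)) g 1 K ((), y))
        (Eventually.of_forall fun y => by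
          have h3 := Ps_bound (id : Unit → Unit) S (fun _ => (0 : ℂ)) hz g hg1 1 K ((), y)
          rw [Real.norm_of_nonneg h3.1]
          exact h3.2)
      have h3 : ((ν : Measure Y).real Set.univ) = 1 := by simp
      rw [h3, mul_one] at h2
      exact (le_abs_self _).trans h2

/-- Proof of `NF.mxa_main`, with `modU_sum` instead of `NF.modl_sum`; `NF.mxa_piece` can be cited. -/
theorem mxu_main (S : Y → Y) (hS : Continuous S) (g : Y → ℂ) (hg : Continuous g) (hg1 : ∀ y, ‖g y‖ ≤ 1 / 2) (K : ℕ)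
    (ρ : Measure (ProbabilityMeasure Y)) [IsProbabilityMeasure ρ] (n : ℕ)
    (D : Fin n → Set (ProbabilityMeasure Y)) (hD : ∀ i, IsClosed (D i)) (hc : ∀ i, ConvPM (D i))
    (e : Fin n → ℝ) (hm : ∀ i, ∀ ν ∈ D i, ModU S g K (ν : Measure Y) (e i))
    (B : Fin n → Set (ProbabilityMeasure Y)) (hB : ∀ i, MeasurableSet (B i))
    (hdisj : Pairwise fun i j => Disjoint (B i) (B j)) (hcov : ⋃ i, B i = Set.univ)
    (hBD : ∀ i, ∀ᵐ ν ∂(ρ.restrict (B i)), ν ∈ D i) (ν₁ : ProbabilityMeasure Y) (e₁ : ℝ)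
    (hν₁ : ModU S g K (ν₁ : Measure Y) e₁) (ν₀ : ProbabilityMeasure Y) (hb : IsBary ρ id ν₀) :
    ModU S g K (ν₀ : Measure Y) (∑ i, ρ.real (B i) * e i) := by
  classical
  have hop := NF.opens_meas Y
  have key : ∀ i, ∃ (ν : ProbabilityMeasure Y) (e' : ℝ), ModU S g K (ν : Measure Y) e' ∧
      ρ.real (B i) * e' = ρ.real (B i) * e i ∧
      ∀ φ : C(Y, ℝ), ρ.real (B i) * ∫ y, φ y ∂(ν : Measure Y) =
        ∫ ν' in B i, (∫ y, φ y ∂(ν' : Measure Y)) ∂ρ := by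
    intro i
    by_cases hw : ρ (B i) = 0
    · have hw' : ρ.real (B i) = 0 := by
        rw [measureReal_def, hw, ENNReal.toReal_zero]
      refine ⟨ν₁, e₁, hν₁, by rw [hw', zero_mul, zero_mul], fun φ => ?_⟩
      rw [hw', zero_mul, Measure.restrict_eq_zero.2 hw, integral_zero_measure]
    · obtain ⟨ν, hν, h1⟩ := NF.mxa_piece ρ (B i) hw (D i) (hD i) (hc i) (hBD i)
      exact ⟨ν, e i, hm i ν hν, rfl, h1⟩
  choose ν e' h1 h2 h3 using key
  have hw1 : ∑ i, ρ.real (B i) = 1 := by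
    have h4 := measureReal_iUnion_fintype (μ := ρ) hdisj hB
    rw [hcov] at h4
    rw [← h4]
    simp
  have hint : ∀ (μ : ProbabilityMeasure Y) (φ : C(Y, ℝ)), Integrable φ (μ : Measure Y) := by
    intro μ φ
    refine Integrable.of_bound (C := ‖φ‖) φ.continuous.aestronglyMeasurable ?_
    exact Eventually.of_forall fun x => φ.norm_coe_le_norm x
  have hν₀ : (ν₀ : Measure Y) = ∑ i, ENNReal.ofReal (ρ.real (B i)) • (ν i : Measure Y) := by
    have hfin : IsFiniteMeasure (∑ i, ENNReal.ofReal (ρ.real (B i)) • (ν i : Measure Y)) := by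
      constructor
      rw [Measure.finset_sum_apply]
      refine ENNReal.sum_lt_top.2 fun i _ => ?_
      rw [Measure.smul_apply, smul_eq_mul]
      exact ENNReal.mul_lt_top ENNReal.ofReal_lt_top (measure_lt_top _ _)
    refine ext_of_forall_integral_eq_of_IsFiniteMeasure fun f => ?_
    have h4 := hb f.toContinuousMap
    have h5 : ∫ y, f y ∂(∑ i, ENNReal.ofReal (ρ.real (B i)) • (ν i : Measure Y)) =
        ∑ i, ρ.real (B i) * ∫ y, f y ∂(ν i : Measure Y) := by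
      have hf : ∀ i ∈ (Finset.univ : Finset (Fin n)), Integrable (fun y => f y)
          (ENNReal.ofReal (ρ.real (B i)) • (ν i : Measure Y)) := fun i _ =>
        Integrable.smul_measure (hint (ν i) f.toContinuousMap) ENNReal.ofReal_ne_top
      rw [integral_finset_sum_measure hf]
      refine Finset.sum_congr rfl fun i _ => ?_
      rw [integral_smul_measure, ENNReal.toReal_ofReal measureReal_nonneg, smul_eq_mul]
    rw [h5]
    have h6 : Integrable (fun ν' : ProbabilityMeasure Y => ∫ y, f y ∂(ν' : Measure Y)) ρ := by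
      have h7 : Continuous fun ν' : ProbabilityMeasure Y => ∫ y, f y ∂(ν' : Measure Y) :=
        ProbabilityMeasure.continuous_integral_continuousMap f.toContinuousMap
      refine Integrable.of_bound (C := ‖f‖) h7.measurable.aestronglyMeasurable ?_
      refine Eventually.of_forall fun ν' => ?_
      have h8 := norm_integral_le_of_norm_le_const (μ := (ν' : Measure Y)) (C := ‖f‖)
        (f := fun y => f y) (Eventually.of_forall fun y => f.norm_coe_le_norm y)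
      simpa using h8
    have h9 : ∫ ν' : ProbabilityMeasure Y, (∫ y, f y ∂(ν' : Measure Y)) ∂ρ =
        ∑ i, ∫ ν' in B i, (∫ y, f y ∂(ν' : Measure Y)) ∂ρ := by
      rw [← integral_iUnion_fintype hB hdisj fun i => h6.integrableOn, hcov, setIntegral_univ]
    refine h4.trans ?_
    change ∫ ν' : ProbabilityMeasure Y, (∫ y, f y ∂(ν' : Measure Y)) ∂ρ = _
    rw [h9]
    exact Finset.sum_congr rfl fun i _ => (h3 i f.toContinuousMap).symm
  have h4 := modU_sum S hS.measurable g hg.measurable hg1 K n (fun i => ρ.real (B i))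
    (fun i => measureReal_nonneg) hw1 (fun i => (ν i : Measure Y)) e' h1 (ν₀ : Measure Y) hν₀
  have h5 : ∑ i, ρ.real (B i) * e' i = ∑ i, ρ.real (B i) * e i :=
    Finset.sum_congr rfl fun i _ => h2 i
  rw [← h5]
  exact h4

end Pool.Agent.Lib.MP_3e612f_nt.ZE
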