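import Pool.Agent.Lib.MP_3e612f_nt.ZE.I.Cont
import Pool.Agent.Lib.MP_3e612f_nt.NF.G.NilC

/-! Project ZE, part I: families of nilsystems. -/

set_option autoImplicit false

namespace Pool.Agent.Lib.MP_3e612f_nt.ZE

open Finset MeasureTheory Filter Topology
open Pool.Agent.Lib.MP_3e612f_nt.NF (GoodR fam Famc NilMfd NilMfd.sys NilMfd.FrIn)

/-- The subspace of the functions bounded by `1/2` is a separable metric space (`C(X, ℂ)` is second countable for compact metrizable `X`): `TopologicalSpace.denseSeq` of the subtype. -/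
theorem dense_ball (X : Type) [TopologicalSpace X] [CompactSpace X] [TopologicalSpace.MetrizableSpace X] : ∃ a : ℕ → C(X, ℂ), (∀ l x, ‖a l x‖ ≤ 1 / 2) ∧
    ∀ f : C(X, ℂ), (∀ x, ‖f x‖ ≤ 1 / 2) → ∀ δ : ℝ, 0 < δ → ∃ l, ∀ x, ‖f x - a l x‖ ≤ δ := by
  have hsc : SecondCountableTopology X := by
    let _ := TopologicalSpace.metrizableSpaceMetric X
    infer_instance
  let B : Type := {f : C(X, ℂ) // ∀ x, ‖f x‖ ≤ 1 / 2}
  have hne : Nonempty B := ⟨⟨0, fun x => by rw [ContinuousMap.zero_apply, norm_zero]; norm_num⟩⟩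
  have hsep : TopologicalSpace.SeparableSpace B := by
    have h1 : SecondCountableTopology B := inferInstance
    infer_instance
  refine ⟨fun l => (TopologicalSpace.denseSeq B l).1, fun l x => (TopologicalSpace.denseSeq B l).2 x,
    fun f hf δ hδ => ?_⟩
  obtain ⟨l, hl⟩ := (TopologicalSpace.denseRange_denseSeq B).exists_dist_lt ⟨f, hf⟩ hδ
  refine ⟨l, fun x => ?_⟩
  have h2 : dist f (TopologicalSpace.denseSeq B l).1 < δ := hl
  rw [← dist_eq_norm]
  exact (ContinuousMap.dist_apply_le_dist x).trans h2.le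

/-- `psi_lip` -/
theorem joinP_close {E Y : Type} [TopologicalSpace E] [CompactSpace E] [MeasurableSpace E] [BorelSpace E] [MetricSpace Y] [CompactSpace Y] [MeasurableSpace Y] [BorelSpace Y]
    (T : E → E) (hT : Continuous T) (S : Y → Y) (hS : Continuous S) (ν : Measure Y) (g : Y → ℂ) (hg : Continuous g) (hg1 : ∀ y, ‖g y‖ ≤ 1 / 2) (f f' : E → ℂ) (hf : Continuous f) (hf' : Continuous f') (h1 : ∀ x, ‖f x‖ ≤ 1 / 2) (h1' : ∀ x, ‖f' x‖ ≤ 1 / 2)
    (H K : ℕ) (ε δ : ℝ) (h : ∀ x, ‖f x - f' x‖ ≤ δ) (lam : Measure (E × Y)) (hl : JoinP T S ν (Ps T S f g H K) ε lam) : JoinP T S ν (Ps T S f' g H K) (ε + 2 ^ (K + 1) * δ) lam := by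
  obtain ⟨hp, hmp, hmar, hint⟩ := hl
  refine ⟨hp, hmp, hmar, ?_⟩
  have hmeas : ∀ u : E → ℂ, Continuous u → Measurable (Ps T S u g H K) := by
    intro u hu
    refine psi_meas H K (fun p : E × Y => wd T S u g p) (fun n => ?_) 0
    have h2 : Measurable fun p : E × Y => g (S^[n] p.2) :=
      (hg.comp (hS.iterate n)).measurable.comp measurable_snd
    have h3 : Measurable fun p : E × Y => u (T^[n] p.1) :=
      (hu.comp (hT.iterate n)).measurable.comp measurable_fst
    exact h2.sub h3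
  have hi : ∀ u : E → ℂ, Continuous u → (∀ x, ‖u x‖ ≤ 1 / 2) →
      Integrable (Ps T S u g H K) lam := by
    intro u hu hu1
    refine Integrable.of_bound (hmeas u hu).aestronglyMeasurable 1
      (Eventually.of_forall fun p => ?_)
    obtain ⟨h2, h3⟩ := Ps_bound T S u hu1 g hg1 H K p
    rw [Real.norm_eq_abs, abs_of_nonneg h2]
    exact h3
  have hw : ∀ u : E → ℂ, (∀ x, ‖u x‖ ≤ 1 / 2) → ∀ (p : E × Y) (n : ℕ), ‖wd T S u g p n‖ ≤ 1 := by
    intro u hu1 p n
    unfold wd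
    have h2 := norm_sub_le (g (S^[n] p.2)) (u (T^[n] p.1))
    have h3 := hg1 (S^[n] p.2)
    have h4 := hu1 (T^[n] p.1)
    linarith
  have hle : ∀ p : E × Y, Ps T S f' g H K p ≤ Ps T S f g H K p + 2 ^ (K + 1) * δ := by
    intro p
    have h2 := psi_lip H K (wd T S f' g p) (wd T S f g p) (hw f' h1' p) (hw f h1 p) δ (fun n => by
      unfold wd
      rw [sub_sub_sub_cancel_left]
      exact h _) 0
    have h3 := (abs_le.1 h2).2
    unfold Ps
    linarith
  calc ∫ p, Ps T S f' g H K p ∂lam ≤ ∫ p, (Ps T S f g H K p + 2 ^ (K + 1) * δ) ∂lam :=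
        integral_mono (hi f' hf' h1') ((hi f hf h1).add (integrable_const _)) hle
    _ = ∫ p, Ps T S f g H K p ∂lam + 2 ^ (K + 1) * δ := by
        rw [integral_add (hi f hf h1) (integrable_const _), integral_const, probReal_univ, one_smul]
    _ ≤ ε + 2 ^ (K + 1) * δ := by linarith

/-- Proof of `NF.NilMfd.exists_famc` (Lib/MP_3e612f_nt/NF/G/NilC): the same `Famc`; only the last lines change. -/
theorem exists_famcU (N : NilMfd) (q : ℕ) (V : ℕ → Set ℝ) (hV : ∀ l, IsOpen (V l)) (h0 : volume (⋂ l, V l) = 0) (hr : ∀ r : ℚ, (r : ℝ) ∉ ⋂ l, V l)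
    (f : C(Fin (q + 1) × (N.G ⧸ N.Γ), ℂ)) (hf : ∀ x, ‖f x‖ ≤ 1 / 2) : ∃ 𝓕 : Famc, (∀ x, ‖𝓕.f x‖ ≤ 1 / 2) ∧
      ∀ (Y : Type) (_ : MeasurableSpace Y) (S : Y → Y) (ν : Measure Y) (g : Y → ℂ) (H K : ℕ) (ε : ℝ) (u : Fin (q + 1) → N.G), N.FrIn u (⋂ l, V l) →
      (∃ (_ : MeasurableSpace (Fin (q + 1) × (N.G ⧸ N.Γ))) (_ : BorelSpace (Fin (q + 1) × (N.G ⧸ N.Γ))) (lam : Measure ((Fin (q + 1) × (N.G ⧸ N.Γ)) × Y)), JoinP (N.sys u) S ν (Ps (N.sys u) S f g H K) ε lam) →
      ∃ z ∈ ⋂ j, 𝓕.GG j, ∃ lam : Measure (𝓕.X × Y), JoinP (𝓕.Φ z) S ν (Ps (𝓕.Φ z) S 𝓕.f g H K) ε lam := by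
  have hmG : TopologicalSpace.MetrizableSpace N.G := TopologicalSpace.metrizableSpace_of_t3_secondCountable N.G
  have hmQ : TopologicalSpace.MetrizableSpace (N.G ⧸ N.Γ) := TopologicalSpace.metrizableSpace_of_t3_secondCountable _
  have hmX : TopologicalSpace.MetrizableSpace (Fin (q + 1) × (N.G ⧸ N.Γ)) := inferInstance
  have hmZ : TopologicalSpace.MetrizableSpace (Fin (q + 1) → N.G) := inferInstance
  have hcX : CompactSpace (Fin (q + 1) × (N.G ⧸ N.Γ)) := inferInstance
  have hcZ : SigmaCompactSpace (Fin (q + 1) → N.G) := inferInstance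
  obtain ⟨a, ha⟩ := exists_surjective_nat (Option ((N.M.I 0 → ℤ) × ℕ))
  -- the sum of the frequencies
  have hsum : ∀ m : N.M.I 0 → ℤ, Continuous fun u : Fin (q + 1) → N.G => ∑ j, NF.dot m (N.M.p 0 (u j)) := by
    intro m
    refine continuous_finsetSum _ fun j _ => ?_
    unfold NF.dot
    refine continuous_finsetSum _ fun i _ => continuous_const.mul ?_
    exact (continuous_apply i).comp ((N.M.p0_cont N.pos).comp (continuous_apply j))
  have hsn : Continuous fun u : Fin (q + 1) → N.G => ∑ j, N.M.n (u j) :=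
    continuous_finsetSum _ fun j _ => N.M.n_cont.comp (continuous_apply j)
  -- the open sets
  obtain ⟨O, hO⟩ : ∃ O : Option ((N.M.I 0 → ℤ) × ℕ) → Set (Fin (q + 1) → N.G), O = fun o => o.elim {u | (∀ x, N.M.n x = 0) ∨ ∑ j, N.M.n (u j) ≠ 0}
      (fun ml => {u | ml.1 = 0 ∨ ∑ j, NF.dot ml.1 (N.M.p 0 (u j)) ∈ V ml.2}) := ⟨_, rfl⟩
  have hOo : ∀ o, IsOpen (O o) := by
    intro o
    rw [hO]
    rcases o with _ | ⟨m, l⟩
    · show IsOpen {u : Fin (q + 1) → N.G | (∀ x, N.M.n x = 0) ∨ ∑ j, N.M.n (u j) ≠ 0}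
      by_cases hn : ∀ x, N.M.n x = 0
      · have h1 : {u : Fin (q + 1) → N.G | (∀ x, N.M.n x = 0) ∨ ∑ j, N.M.n (u j) ≠ 0} = Set.univ := by
          ext u
          simp [hn]
        rw [h1]
        exact isOpen_univ
      · have h1 : {u : Fin (q + 1) → N.G | (∀ x, N.M.n x = 0) ∨ ∑ j, N.M.n (u j) ≠ 0} = (fun u : Fin (q + 1) → N.G => ∑ j, N.M.n (u j)) ⁻¹' {0}ᶜ := by
          ext u
          simp [hn]
        rw [h1]
        exact (isClosed_singleton.isOpen_compl).preimage hsn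
    · show IsOpen {u : Fin (q + 1) → N.G | m = 0 ∨ ∑ j, NF.dot m (N.M.p 0 (u j)) ∈ V l}
      by_cases hm : m = 0
      · have h1 : {u : Fin (q + 1) → N.G | m = 0 ∨ ∑ j, NF.dot m (N.M.p 0 (u j)) ∈ V l} = Set.univ := by
          ext u
          simp [hm]
        rw [h1]
        exact isOpen_univ
      · have h1 : {u : Fin (q + 1) → N.G | m = 0 ∨ ∑ j, NF.dot m (N.M.p 0 (u j)) ∈ V l} = (fun u : Fin (q + 1) → N.G => ∑ j, NF.dot m (N.M.p 0 (u j))) ⁻¹' (V l) := by
          ext u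
          simp [hm]
        rw [h1]
        exact (hV l).preimage (hsum m)
  have hOi : ∀ u, u ∈ ⋂ j, O (a j) ↔ N.FrIn u (⋂ l, V l) := by
    intro u
    rw [Set.mem_iInter]
    constructor
    · intro h
      have h1 : ∀ o, u ∈ O o := by
        intro o
        obtain ⟨j, hj⟩ := ha o
        rw [← hj]
        exact h j
      rw [hO] at h1
      refine ⟨h1 none, fun m hm => ?_⟩
      have h2 : ∑ j, NF.dot m (N.M.p 0 (u j)) ∈ ⋂ l, V l := by
        refine Set.mem_iInter.2 fun l => ?_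
        exact Or.resolve_left (h1 (some (m, l))) hm
      refine ⟨h2, fun r hr' => ?_⟩
      rw [hr'] at h2
      exact hr r h2
    · rintro ⟨h1, h2⟩ j
      rw [hO]
      rcases a j with _ | ⟨m, l⟩
      · exact h1
      · by_cases hm : m = 0
        · exact Or.inl hm
        · exact Or.inr (Set.mem_iInter.1 (h2 m hm).1 l)
  have hΦ : Continuous fun w : (Fin (q + 1) → N.G) × (Fin (q + 1) × (N.G ⧸ N.Γ)) => N.sys w.1 w.2 := by
    have h1c : Continuous (fun i : Fin (q + 1) => i + 1) := continuous_of_discreteTopology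
    have hev : Continuous (fun w : (Fin (q + 1) → N.G) × Fin (q + 1) => w.1 w.2) := by
      rw [continuous_prod_of_discrete_right]
      intro j
      exact continuous_apply j
    refine (h1c.comp (continuous_fst.comp continuous_snd)).prodMk ?_
    exact (hev.comp (continuous_fst.prodMk (continuous_fst.comp continuous_snd))).smul (continuous_snd.comp continuous_snd)
  have hgood : ∀ U : Set (Fin (q + 1) → N.G), IsCompact U → U ⊆ ⋂ j, O (a j) → GoodR (fam (fun u z => N.sys u z) U) (fun w => f w.2) :=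
    fun U hU hUO => N.good_fam q (⋂ l, V l) h0 U hU (fun u hu => (hOi u).1 (hUO hu)) f f.continuous
  let msX : MeasurableSpace (Fin (q + 1) × (N.G ⧸ N.Γ)) := borel _
  have bsX : BorelSpace (Fin (q + 1) × (N.G ⧸ N.Γ)) := ⟨rfl⟩
  let msZ : MeasurableSpace (Fin (q + 1) → N.G) := borel _
  have bsZ : BorelSpace (Fin (q + 1) → N.G) := ⟨rfl⟩
  refine ⟨{ X := Fin (q + 1) × (N.G ⧸ N.Γ)
            Z := Fin (q + 1) → N.G
            mX := TopologicalSpace.metrizableSpaceMetric _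
            cX := hcX
            sX := msX
            bX := bsX
            mZ := TopologicalSpace.metrizableSpaceMetric _
            cZ := hcZ
            sZ := msZ
            bZ := bsZ
            Φ := fun u z => N.sys u z
            cont := hΦ
            GG := fun j => O (a j)
            isOpen := fun j => hOo (a j)
            f := f
            hf := f.continuous
            good := hgood }, hf, ?_⟩
  rintro Y _ S ν g H K ε u hu ⟨m, hb, lam, hlam⟩
  obtain rfl : m = borel _ := hb.measurable_eq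
  exact ⟨u, (hOi u).2 hu, lam, hlam⟩

end Pool.Agent.Lib.MP_3e612f_nt.ZE
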