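import Pool.Agent.Lib.MP_3e612f_nt.ZE.H.Main
import Pool.Agent.Lib.MP_3e612f_nt.ZE.I.Asm
import Pool.Agent.Lib.MP_3e612f_nt.ZE.I.LInv
import Pool.Agent.Lib.MP_3e612f_nt.ZE.I.NilA

/-! Project ZE: the main theorem for functions bounded by `1/2`. -/

set_option autoImplicit false

namespace Pool.Agent.Lib.MP_3e612f_nt.ZE

open Finset MeasureTheory Filter Topology ProbabilityTheory
open Pool.Agent.Lib.MP_3e612f_nt.PI (mc)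
open Pool.Agent.Lib.MP_3e612f_nt.NF (GoodR fam Famc NilMfd NilMfd.sys NilMfd.FrIn)

/-- The measure `ν` is modelled, for `g`, in all seminorms by nilsystems on the nilmanifolds `𝒩 i` with finitely many pieces, with all frequencies in `E` and irrational. -/
def NilU {Y : Type} [MeasurableSpace Y] (S : Y → Y) (g : Y → ℂ) (𝒩 : ℕ → NilMfd) (E : Set ℝ) (ν : Measure Y) : Prop :=
  ∀ (K : ℕ) (ε : ℝ), 0 < ε → ∃ (i q : ℕ) (u : Fin (q + 1) → (𝒩 i).G), (𝒩 i).FrIn u E ∧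
    ∃ (_ : MeasurableSpace (Fin (q + 1) × ((𝒩 i).G ⧸ (𝒩 i).Γ))) (_ : BorelSpace (Fin (q + 1) × ((𝒩 i).G ⧸ (𝒩 i).Γ)))
      (f : Fin (q + 1) × ((𝒩 i).G ⧸ (𝒩 i).Γ) → ℂ) (H : ℕ) (lam : Measure ((Fin (q + 1) × ((𝒩 i).G ⧸ (𝒩 i).Γ)) × Y)),
      Continuous f ∧ (∀ x, ‖f x‖ ≤ 1 / 2) ∧ 1 ≤ H ∧ JoinP ((𝒩 i).sys u) S ν (Ps ((𝒩 i).sys u) S f g H K) ε lam

private theorem nilI_sys_cont (N : NilMfd) (q : ℕ) (u : Fin (q + 1) → N.G) : Continuous (N.sys u) := by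
  have h1c : Continuous (fun i : Fin (q + 1) => i + 1) := continuous_of_discreteTopology
  have h2c : Continuous u := continuous_of_discreteTopology
  refine (h1c.comp continuous_fst).prodMk ?_
  exact (h2c.comp continuous_fst).smul continuous_snd

/-- `windows`; the models from `erg_modU`, as in the proof of `NF.nil_erg` (Lib/MP_3e612f_nt/NF/G/NilErg): `NF.null_gdelta`, the families `exists_famcU` for `(i, q, l, H)` (`ℕ × ℕ × ℕ × ℕ`, the function number `l` of `dense_ball`, the scale `H + 1`), `NF.erg_dec`, `llim_mp`, `joinP_close` with `δ = ε / (8 * 2 ^ (K + 1))`. -/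
theorem nil_ze (hL : StmtL) {Y : Type} [MetricSpace Y] [CompactSpace Y] [MeasurableSpace Y] [BorelSpace Y] (S : Y → Y) (hS : Continuous S) (g : Y → ℂ) (hg : Continuous g) (hg1 : ∀ y, ‖g y‖ ≤ 1 / 2) (F : Set (ℕ → Y))
    (H : ∀ (ν : Measure Y) (_ : IsProbabilityMeasure ν), LLim S F ν → ZEnt S g ν ∧ ∃ (𝒩 : ℕ → NilMfd) (E : Set ℝ), volume E = 0 ∧
      ∀ᵐ y ∂ν, Ergodic S (condExpKernel ν (MeasurableSpace.invariants S) y) → NilU S g 𝒩 E (condExpKernel ν (MeasurableSpace.invariants S) y)) :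
    ∀ ε : ℝ, 0 < ε → ∃ h₀ : ℕ, ∀ h ≥ h₀, ∃ N₀ : ℕ, ∀ N ≥ N₀, ∀ y ∈ F,
      ∑ x ∈ range N, ‖∑ n ∈ range h, mc (x + n) * g (S^[n] (y x))‖ / ((x : ℝ) + 1) ≤ ε * h * Real.log N := by
  refine windows hL S hS g hg hg1 F fun ν hν hD => ?_
  have hinv := llim_mp S hS F ν hD
  obtain ⟨hZ, 𝒩, E, hE, hN⟩ := H ν hν hD
  refine ⟨hZ, fun K t ht => ?_⟩
  obtain ⟨V, hV, hV0, hVr, hVE⟩ := Pool.Agent.Lib.MP_3e612f_nt.NF.null_gdelta E hE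
  -- dense sequences of functions bounded by `1/2`
  have hdense : ∀ b : ℕ × ℕ, ∃ a : ℕ → C(Fin (b.2 + 1) × ((𝒩 b.1).G ⧸ (𝒩 b.1).Γ), ℂ), (∀ l x, ‖a l x‖ ≤ 1 / 2) ∧
      ∀ f : C(Fin (b.2 + 1) × ((𝒩 b.1).G ⧸ (𝒩 b.1).Γ), ℂ), (∀ x, ‖f x‖ ≤ 1 / 2) → ∀ δ : ℝ, 0 < δ → ∃ l, ∀ x, ‖f x - a l x‖ ≤ δ := by
    intro b
    have hmG : TopologicalSpace.MetrizableSpace (𝒩 b.1).G := TopologicalSpace.metrizableSpace_of_t3_secondCountable (𝒩 b.1).G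
    have hmQ : TopologicalSpace.MetrizableSpace ((𝒩 b.1).G ⧸ (𝒩 b.1).Γ) := TopologicalSpace.metrizableSpace_of_t3_secondCountable _
    exact dense_ball (Fin (b.2 + 1) × ((𝒩 b.1).G ⧸ (𝒩 b.1).Γ))
  choose a ha1 ha2 using hdense
  -- the families
  have hfam : ∀ b : ℕ × ℕ × ℕ × ℕ, ∃ 𝓕 : Famc, (∀ x, ‖𝓕.f x‖ ≤ 1 / 2) ∧
      ∀ (Y : Type) (_ : MeasurableSpace Y) (S : Y → Y) (ν : Measure Y) (g : Y → ℂ) (H K : ℕ) (ε : ℝ) (u : Fin (b.2.1 + 1) → (𝒩 b.1).G), (𝒩 b.1).FrIn u (⋂ l, V l) →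
      (∃ (_ : MeasurableSpace (Fin (b.2.1 + 1) × ((𝒩 b.1).G ⧸ (𝒩 b.1).Γ))) (_ : BorelSpace (Fin (b.2.1 + 1) × ((𝒩 b.1).G ⧸ (𝒩 b.1).Γ)))
        (lam : Measure ((Fin (b.2.1 + 1) × ((𝒩 b.1).G ⧸ (𝒩 b.1).Γ)) × Y)), JoinP ((𝒩 b.1).sys u) S ν (Ps ((𝒩 b.1).sys u) S (a (b.1, b.2.1) b.2.2.1) g H K) ε lam) →
      ∃ z ∈ ⋂ j, 𝓕.GG j, ∃ lam : Measure (𝓕.X × Y), JoinP (𝓕.Φ z) S ν (Ps (𝓕.Φ z) S 𝓕.f g H K) ε lam :=
    fun b => exists_famcU (𝒩 b.1) b.2.1 V hV hV0 hVr (a (b.1, b.2.1) b.2.2.1) (ha1 (b.1, b.2.1) b.2.2.1)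
  choose 𝓕 h𝓕1 h𝓕 using hfam
  obtain ⟨b, hb⟩ := exists_surjective_nat (ℕ × ℕ × ℕ × ℕ)
  have hmain := erg_modU S hS g hg hg1 (fun j => 𝓕 (b j)) (fun c => h𝓕1 (b c)) (fun c => (b c).2.2.2 + 1)
    (fun c => Nat.succ_le_succ (Nat.zero_le _)) K (t / 2) (by positivity) ν hinv (by
    filter_upwards [Pool.Agent.Lib.MP_3e612f_nt.NF.erg_dec S hS ν hinv, hN] with y hy1 hy2
    obtain ⟨i, q, u, hu, m, hbm, f, H₀, lam, hf, hf1, hH₀, hlam⟩ := hy2 hy1 K (t / 4) (by positivity)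
    have hu' : (𝒩 i).FrIn u (⋂ l, V l) := ⟨hu.1, fun m hm => ⟨hVE _ (hu.2 m hm).1 (hu.2 m hm).2, (hu.2 m hm).2⟩⟩
    obtain ⟨l, hl⟩ := ha2 (i, q) ⟨f, hf⟩ hf1 (t / (4 * 2 ^ (K + 1))) (by positivity)
    have h2 := joinP_close ((𝒩 i).sys u) (nilI_sys_cont (𝒩 i) q u) S hS (condExpKernel ν (MeasurableSpace.invariants S) y) g hg hg1 f _ hf
      (a (i, q) l).continuous hf1 (ha1 (i, q) l) H₀ K (t / 4) (t / (4 * 2 ^ (K + 1))) hl lam hlam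
    have h3 : t / 4 + 2 ^ (K + 1) * (t / (4 * 2 ^ (K + 1))) = t / 2 := by
      field_simp
      ring
    rw [h3] at h2
    obtain ⟨c, hc⟩ := hb (i, q, l, H₀ - 1)
    obtain ⟨z, hz, lam', hlam'⟩ := h𝓕 (i, q, l, H₀ - 1) Y inferInstance S (condExpKernel ν (MeasurableSpace.invariants S) y) g H₀ K (t / 2) u hu' ⟨m, hbm, lam, h2⟩
    refine ⟨c, ?_⟩
    show ∃ z ∈ ⋂ j, (𝓕 (b c)).GG j, ∃ lam : Measure ((𝓕 (b c)).X × Y), JoinP ((𝓕 (b c)).Φ z) S _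
      (Ps ((𝓕 (b c)).Φ z) S (𝓕 (b c)).f g ((b c).2.2.2 + 1) K) (t / 2) lam
    rw [hc]
    have h4 : H₀ - 1 + 1 = H₀ := Nat.sub_add_cancel hH₀
    refine ⟨z, hz, lam', ?_⟩
    show JoinP ((𝓕 (i, q, l, H₀ - 1)).Φ z) S _ (Ps ((𝓕 (i, q, l, H₀ - 1)).Φ z) S (𝓕 (i, q, l, H₀ - 1)).f g (H₀ - 1 + 1) K) (t / 2) lam'
    rw [h4]
    exact hlam')
  have h3 : 2 * (t / 2) = t := by ring
  rw [h3] at hmain
  exact hmain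

end Pool.Agent.Lib.MP_3e612f_nt.ZE
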